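import Pool.Agent.H894R3.SB.Main
import Pool.Agent.H894R3.SB.Conv_helper377
import Pool.Agent.H894R3.SB.Pack_helper924
import Pool.Agent.H894R3.SB.Pairs_helper643
import Pool.Agent.H894R3.SB.Upper_helper583
import Pool.Agent.H894R3.SB.Count_helper391
import Pool.Agent.H894R3.SB.Abel_helper343

set_option autoImplicit false

/-!
# Strong `B_h` sets with `h = 2k` even: the logarithmic saving

In each interval `[N, N ^ (1 + δ)]` there is `n` with `S(n) < K (n / log n) ^ ((1 - α) / h)`.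
-/

open Filter Finset

namespace Pool.Agent.Y941.SB

open Pool.Agent.H894R3.SB

/-- the constant of the upper bound -/
noncomputable def UC (α : ℝ) (k : ℕ) : ℝ :=
  Upper583.B k / (1 - (2 : ℝ) ^ (-((1 - α) / (2 * (k : ℝ)))))

/-- the upper bound with a uniform constant -/
theorem upper (α : ℝ) (k : ℕ) (h0 : 0 ≤ α) (h1 : α < 1) (hk : 1 ≤ k) : 0 < UC α k ∧
    ∀ S : Set ℕ, StrongB α (2 * k) S → ∀ n : ℕ,
      (cnt S n : ℝ) ≤ UC α k * (n : ℝ) ^ ((1 - α) / (2 * (k : ℝ))) := by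
  have hk0 : (0 : ℝ) < k := by exact_mod_cast hk
  unfold UC
  set β := (1 - α) / (2 * (k : ℝ)) with hβ
  have hβ0 : 0 < β := by
    rw [hβ]
    exact div_pos (by linarith) (by positivity)
  have hB := Upper583.one_le_B k
  set r := (2 : ℝ) ^ (-β) with hr
  have hr0 : 0 < r := by positivity
  have hr1 : r < 1 := by
    rw [hr]
    exact Real.rpow_lt_one_of_one_lt_of_neg (by norm_num) (by linarith)
  set C := Upper583.B k / (1 - r) with hC
  have hC0 : 0 < C := div_pos (by linarith) (by linarith)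
  have hCB : Upper583.B k = C * (1 - r) := by
    rw [hC]
    field_simp [(by linarith : (1 : ℝ) - r ≠ 0)]
  refine ⟨hC0, ?_⟩
  intro S hS n
  induction n using Nat.strong_induction_on with
  | _ n ih =>
    rcases Nat.eq_zero_or_pos n with rfl | hn
    · rw [Upper583.cnt_zero]
      simp only [Nat.cast_zero]
      positivity
    · have h2 := ih (n / 2) (Nat.div_lt_self hn (by norm_num))
      have h3 := Upper583.cnt_step S n
      have h4 := Upper583.card_T taskPack taskPairs α k S h0 h1 hk hS n hn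
      rw [← hβ] at h4
      have h5 : (cnt S n : ℝ) ≤ (cnt S (n / 2) : ℝ) + ((SI S (n / 2) n).card : ℝ) := by
        exact_mod_cast h3
      have h6 : (((n / 2 : ℕ)) : ℝ) ^ β ≤ r * (n : ℝ) ^ β := by
        have e1 : (((n / 2 : ℕ)) : ℝ) ≤ (n : ℝ) / 2 := Nat.cast_div_le
        have e2 := Real.rpow_le_rpow (by positivity) e1 hβ0.le
        rw [Real.div_rpow (by positivity) (by norm_num)] at e2
        refine e2.trans (le_of_eq ?_)
        rw [hr, Real.rpow_neg (by norm_num)]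
        field_simp
      have h7 : C * (((n / 2 : ℕ)) : ℝ) ^ β ≤ C * (r * (n : ℝ) ^ β) :=
        mul_le_mul_of_nonneg_left h6 hC0.le
      calc (cnt S n : ℝ) ≤ C * (r * (n : ℝ) ^ β) + Upper583.B k * (n : ℝ) ^ β := by linarith
        _ = C * (n : ℝ) ^ β := by rw [hCB]; ring

/-- the lower bound for the number of `k`-subsets -/
theorem lower (k : ℕ) (S : Set ℕ) (hk : 1 ≤ k) (β C : ℝ) (q l J : ℕ) (hq : 1 ≤ q) (hl : 1 ≤ l)
    (hJ : 1 ≤ J) (h1 : (C + 1) * ((J : ℝ) ^ β * (l : ℝ) ^ β) ≤ cnt S (J * (q * l)))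
    (h2 : (cnt S (J * l) : ℝ) ≤ C * ((J : ℝ) ^ β * (l : ℝ) ^ β)) (hβ0 : 0 < β)
    (hl2 : (2 * k : ℝ) ≤ (l : ℝ) ^ β) :
    (1 / (2 ^ k * (k.factorial : ℝ))) * ((l : ℝ) ^ β) ^ k * ((J : ℝ) ^ β) ^ k ≤
      ∑ j ∈ Finset.Icc 1 J, ((AJ S k q l j).card : ℝ) := by
  have h := taskCount S k q l J hk hq hl hJ
  set u : ℕ := cnt S (J * (q * l)) - cnt S (J * l) with hu
  have hJ0 : (0 : ℝ) < J := by exact_mod_cast hJ
  have hl0 : (0 : ℝ) < l := by exact_mod_cast hl
  have hv : (0 : ℝ) ≤ (J : ℝ) ^ β * (l : ℝ) ^ β := by positivity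
  have h3 : (cnt S (J * l) : ℝ) + (J : ℝ) ^ β * (l : ℝ) ^ β ≤ cnt S (J * (q * l)) := by
    linarith
  have h4 : (J : ℝ) ^ β * (l : ℝ) ^ β ≤ (u : ℝ) := by
    have h5 : cnt S (J * l) ≤ cnt S (J * (q * l)) := by
      have : (cnt S (J * l) : ℝ) ≤ cnt S (J * (q * l)) := by linarith
      exact_mod_cast this
    rw [hu, Nat.cast_sub h5]
    linarith
  clear_value u
  have hJ1 : (1 : ℝ) ≤ (J : ℝ) ^ β := Real.one_le_rpow (by exact_mod_cast hJ) hβ0.le
  have h6 : (2 * k : ℝ) ≤ u := by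
    have h7 : (l : ℝ) ^ β ≤ (J : ℝ) ^ β * (l : ℝ) ^ β := le_mul_of_one_le_left (by positivity) hJ1
    linarith
  have h6' : 2 * k ≤ u := by exact_mod_cast h6
  have h8 : ((u + 1 - k : ℕ) : ℝ) ^ k / (k.factorial : ℝ) ≤ (u.choose k : ℝ) :=
    Nat.pow_le_choose k u
  have h9 : (u : ℝ) / 2 ≤ ((u + 1 - k : ℕ) : ℝ) := by
    rw [Nat.cast_sub (by omega)]
    push_cast
    linarith
  have hf : (0 : ℝ) < (k.factorial : ℝ) := by positivity
  calc (1 / (2 ^ k * (k.factorial : ℝ))) * ((l : ℝ) ^ β) ^ k * ((J : ℝ) ^ β) ^ k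
      = ((((J : ℝ) ^ β * (l : ℝ) ^ β)) / 2) ^ k / (k.factorial : ℝ) := by
        rw [div_pow, mul_pow]
        field_simp
    _ ≤ ((u + 1 - k : ℕ) : ℝ) ^ k / (k.factorial : ℝ) := by
        apply div_le_div_of_nonneg_right _ hf.le
        apply pow_le_pow_left₀ (by positivity)
        linarith
    _ ≤ (u.choose k : ℝ) := h8
    _ ≤ _ := by exact_mod_cast h

/-- logarithms are small -/
theorem ev_log (a b r : ℝ) (hr : 0 < r) : ∀ᶠ x : ℝ in atTop, a * Real.log x + b ≤ x ^ r := by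
  have h1 : (fun x : ℝ => a * Real.log x + b) =o[atTop] fun x : ℝ => x ^ r := by
    refine ((isLittleO_log_rpow_atTop hr).const_mul_left a).add ?_
    refine Asymptotics.isLittleO_const_left.2 (Or.inr ?_)
    exact tendsto_norm_atTop_atTop.comp (tendsto_rpow_atTop hr)
  filter_upwards [h1.bound (show (0 : ℝ) < 1 by norm_num), eventually_ge_atTop 0] with x hx hx0
  rw [one_mul, Real.norm_eq_abs, Real.norm_eq_abs, abs_of_nonneg (Real.rpow_nonneg hx0 r)] at hx
  exact (le_abs_self _).trans hx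

theorem local_log (α : ℝ) (k : ℕ) (hα : 0 ≤ α) (hα1 : α < 1) (hk : 1 ≤ k) (δ : ℝ) (hδ : 0 < δ) :
    ∃ K : ℝ, 0 < K ∧ ∃ N0 : ℕ, ∀ S : Set ℕ, StrongB α (2 * k) S → ∀ N : ℕ, N0 ≤ N →
      ∃ n : ℕ, N ≤ n ∧ (n : ℝ) ≤ (N : ℝ) ^ (1 + δ) ∧
        (cnt S n : ℝ) < K * ((n : ℝ) / Real.log n) ^ ((1 - α) / (2 * (k : ℝ))) := by
  obtain ⟨hC, hupper⟩ := upper α k hα hα1 hk
  set C : ℝ := UC α k with hCdef
  set β : ℝ := (1 - α) / (2 * (k : ℝ)) with hβ
  have hk0 : (0 : ℝ) < k := by exact_mod_cast hk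
  have hk1 : (1 : ℝ) ≤ k := by exact_mod_cast hk
  have hα2 : 0 < 1 - α := by linarith
  have hβ0 : 0 < β := by positivity
  have hβk : β * k = (1 - α) / 2 := by
    rw [hβ]
    field_simp
  have hβ1 : β ≤ 1 := by nlinarith
  have hβ2k : β * (2 * k : ℕ) = 1 - α := by
    rw [hβ]
    push_cast
    field_simp
  set ε' : ℝ := min δ 1 / 2 with hε'
  have hmin : 0 < min δ 1 := lt_min hδ one_pos
  have hε'0 : 0 < ε' := by positivity
  have hε'δ : 2 * ε' ≤ δ := by
    rw [hε']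
    have := min_le_left δ 1
    linarith
  have hε'1 : 2 * ε' ≤ 1 := by
    rw [hε']
    have := min_le_right δ 1
    linarith
  set ε : ℝ := min (β / (8 * k)) ε' with hε
  have hε0 : 0 < ε := lt_min (by positivity) hε'0
  have hεε' : ε ≤ ε' := min_le_right _ _
  have hεβ : ε ≤ β / (8 * k) := min_le_left _ _
  set a0 : ℝ := 1 / (2 ^ k * (k.factorial : ℝ)) with ha0
  have ha0p : 0 < a0 := by positivity
  set w : ℝ := (a0 * ((1 - α) / 4)) ^ 2 with hw
  have hwp : 0 < w := by positivity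
  set θ : ℝ := w * ε / (8 * k) with hθ
  have hθ0 : 0 < θ := by positivity
  set K : ℝ := (C + 1) * (2 / θ) ^ β with hK
  have hK0 : 0 < K := by positivity
  refine ⟨K, hK0, ?_⟩
  have hcast : Tendsto (fun n : ℕ => (n : ℝ)) atTop atTop := tendsto_natCast_atTop_atTop
  have hTβ : ∀ᶠ l : ℕ in atTop, (2 * k : ℝ) ≤ (l : ℝ) ^ β :=
    ((tendsto_rpow_atTop hβ0).comp hcast).eventually_ge_atTop _
  have hE1 : ∀ᶠ l : ℕ in atTop, (k * C * θ) * Real.log l + k * C ≤ (l : ℝ) ^ (β / (4 * k)) :=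
    hcast.eventually (ev_log _ _ _ (by positivity))
  have hE2 : ∀ᶠ l : ℕ in atTop, θ * Real.log l + 1 ≤ (l : ℝ) ^ ε' :=
    hcast.eventually (ev_log _ _ _ hε'0)
  have hE3 : ∀ᶠ l : ℕ in atTop, 2 * (4 * k + 1) / (w * ε) < Real.log l :=
    (Real.tendsto_log_atTop.comp hcast).eventually_gt_atTop _
  obtain ⟨N0, hN0⟩ := eventually_atTop.1 ((((hTβ.and hE1).and hE2).and hE3).and
    (eventually_ge_atTop 3))
  refine ⟨N0, fun S hS l hl => ?_⟩
  obtain ⟨⟨⟨⟨hl2, hl3⟩, hl4⟩, hl5⟩, hl6⟩ := hN0 l hl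
  by_contra hcon
  push Not at hcon
  have hup := hupper S hS
  have hl1 : 1 ≤ l := by omega
  have hl0 : (0 : ℝ) < l := by exact_mod_cast hl1
  have hl1' : (1 : ℝ) ≤ l := by exact_mod_cast hl1
  have hlog : 0 < Real.log l := Real.log_pos (by exact_mod_cast (by omega : 1 < l))
  set q : ℕ := ⌈θ * Real.log l⌉₊ with hq
  have hq1 : 1 ≤ q := Nat.one_le_iff_ne_zero.2 (Nat.ceil_pos.2 (by positivity)).ne'
  have hqge : θ * Real.log l ≤ q := Nat.le_ceil _
  have hqle : (q : ℝ) ≤ θ * Real.log l + 1 := (Nat.ceil_lt_add_one (by positivity)).le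
  set M : ℕ := ⌊(l : ℝ) ^ ε⌋₊ with hM
  have hMle : (M : ℝ) ≤ (l : ℝ) ^ ε := Nat.floor_le (by positivity)
  have hMge : (l : ℝ) ^ ε < M + 1 := Nat.lt_floor_add_one _
  have hM1 : 1 ≤ M := Nat.le_floor (by
    rw [Nat.cast_one]
    exact Real.one_le_rpow hl1' hε0.le)
  have hM1' : (1 : ℝ) ≤ M := by exact_mod_cast hM1
  have hq1' : (1 : ℝ) ≤ q := by exact_mod_cast hq1
  -- the lower bound
  have hlow : ∀ J : ℕ, 1 ≤ J → J ≤ M →
      (C + 1) * ((J : ℝ) ^ β * (l : ℝ) ^ β) ≤ cnt S (J * (q * l)) := by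
    intro J hJ1 hJM
    have hJ1' : (1 : ℝ) ≤ J := by exact_mod_cast hJ1
    have hJM' : (J : ℝ) ≤ M := by exact_mod_cast hJM
    have n1 : l ≤ J * (q * l) :=
      (Nat.le_mul_of_pos_left l hq1).trans (Nat.le_mul_of_pos_left _ hJ1)
    have n2 : ((J * (q * l) : ℕ) : ℝ) ≤ (l : ℝ) ^ (2 * ε') * l := by
      push_cast
      have e1 : (J : ℝ) ≤ (l : ℝ) ^ ε' :=
        (hJM'.trans hMle).trans (Real.rpow_le_rpow_of_exponent_le hl1' hεε')
      have e2 : (q : ℝ) ≤ (l : ℝ) ^ ε' := hqle.trans hl4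
      have e3 : (l : ℝ) ^ (2 * ε') = (l : ℝ) ^ ε' * (l : ℝ) ^ ε' := by
        rw [two_mul, Real.rpow_add hl0]
      rw [e3, ← mul_assoc]
      exact mul_le_mul_of_nonneg_right
        (mul_le_mul e1 e2 (by positivity) (by positivity)) hl0.le
    have n3 : ((J * (q * l) : ℕ) : ℝ) ≤ (l : ℝ) ^ (1 + δ) := by
      refine n2.trans ?_
      rw [add_comm 1 δ, Real.rpow_add hl0, Real.rpow_one]
      exact mul_le_mul_of_nonneg_right (Real.rpow_le_rpow_of_exponent_le hl1' hε'δ) hl0.le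
    have n4 : ((J * (q * l) : ℕ) : ℝ) ≤ (l : ℝ) ^ (2 : ℝ) := by
      refine n2.trans ?_
      rw [show (2 : ℝ) = 1 + 1 by norm_num, Real.rpow_add hl0 1 1, Real.rpow_one]
      refine mul_le_mul_of_nonneg_right ?_ hl0.le
      calc (l : ℝ) ^ ((1 + 1) * ε') ≤ (l : ℝ) ^ (1 : ℝ) :=
            Real.rpow_le_rpow_of_exponent_le hl1' (by linarith)
        _ = l := Real.rpow_one _
    have h := hcon (J * (q * l)) n1 n3
    set n : ℝ := ((J * (q * l) : ℕ) : ℝ) with hn
    have hn1 : (l : ℝ) ≤ n := by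
      rw [hn]
      exact_mod_cast n1
    have hn0 : 0 < n := lt_of_lt_of_le hl0 hn1
    have hlogn : 0 < Real.log n := lt_of_lt_of_le hlog (Real.log_le_log hl0 hn1)
    have hlogn2 : Real.log n ≤ 2 * Real.log l := by
      have := Real.log_le_log hn0 n4
      rwa [Real.log_rpow hl0] at this
    refine le_trans ?_ h
    have e5 : (J : ℝ) * l * (θ / 2) ≤ n / Real.log n := by
      rw [le_div_iff₀ hlogn]
      calc (J : ℝ) * l * (θ / 2) * Real.log n ≤ (J : ℝ) * l * (θ / 2) * (2 * Real.log l) :=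
            mul_le_mul_of_nonneg_left hlogn2 (by positivity)
        _ = (J : ℝ) * l * (θ * Real.log l) := by ring
        _ ≤ (J : ℝ) * l * q := mul_le_mul_of_nonneg_left hqge (by positivity)
        _ = n := by
            rw [hn]
            push_cast
            ring
    have e6 := Real.rpow_le_rpow (by positivity) e5 hβ0.le
    calc (C + 1) * ((J : ℝ) ^ β * (l : ℝ) ^ β)
        = K * ((J : ℝ) * l * (θ / 2)) ^ β := by
          rw [hK, Real.mul_rpow (by positivity) (by positivity),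
            Real.mul_rpow (by positivity) (by positivity)]
          have e7 : (2 / θ) ^ β * (θ / 2) ^ β = 1 := by
            rw [← Real.mul_rpow (by positivity) (by positivity)]
            have : 2 / θ * (θ / 2) = 1 := by
              field_simp
            rw [this, Real.one_rpow]
          linear_combination (-(C + 1) * ((J : ℝ) ^ β * (l : ℝ) ^ β)) * e7
      _ ≤ K * (n / Real.log n) ^ β := mul_le_mul_of_nonneg_left e6 hK0.le
  -- the packing bound
  have hlβ : (1 : ℝ) ≤ (l : ℝ) ^ β := Real.one_le_rpow hl1' hβ0.le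
  have hl1a : (l : ℝ) ^ (1 - α) = ((l : ℝ) ^ β) ^ (2 * k) := by
    rw [← Real.rpow_natCast, ← Real.rpow_mul hl0.le, hβ2k]
  have hl1b : (l : ℝ) ^ ((1 - α) / 2) = ((l : ℝ) ^ β) ^ k := by
    rw [← Real.rpow_natCast, ← Real.rpow_mul hl0.le, hβk]
  have hle : (l : ℝ) ^ β ≤ (l : ℝ) ^ (1 - α) := by
    rw [hl1a]
    exact le_self_pow₀ hlβ (by omega)
  have h8k : β / (8 * k) ≤ β := by
    rw [div_le_iff₀ (by positivity)]
    nlinarith
  have hMα : (M : ℝ) ^ α ≤ M := by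
    calc (M : ℝ) ^ α ≤ (M : ℝ) ^ (1 : ℝ) := Real.rpow_le_rpow_of_exponent_le hM1' hα1.le
      _ = M := Real.rpow_one _
  have hMβ : (M : ℝ) ≤ (l : ℝ) ^ β :=
    hMle.trans (Real.rpow_le_rpow_of_exponent_le hl1' (hεβ.trans h8k))
  have hR : (((M * l : ℕ) : ℝ)) ^ α ≤ ((k * q * l : ℕ) : ℝ) := by
    rw [Nat.cast_mul, Real.mul_rpow (by positivity) (by positivity)]
    have h1 : (M : ℝ) ^ α ≤ (l : ℝ) ^ (1 - α) := (hMα.trans hMβ).trans hle
    have h2 : (l : ℝ) ^ (1 - α) * (l : ℝ) ^ α = l := by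
      rw [← Real.rpow_add hl0]
      simp
    calc (M : ℝ) ^ α * (l : ℝ) ^ α ≤ (l : ℝ) ^ (1 - α) * (l : ℝ) ^ α :=
          mul_le_mul_of_nonneg_right h1 (by positivity)
      _ = l := h2
      _ ≤ ((k * q * l : ℕ) : ℝ) := by
          exact_mod_cast Nat.le_mul_of_pos_left l (Nat.mul_pos hk hq1)
  have hTT : (M : ℝ) * (M : ℝ) ^ α * (cnt S (M * (k * q * l)) : ℝ) ^ (2 * k - 1) ≤
      (l : ℝ) ^ (1 - α) := by
    have h1 : (cnt S (M * (k * q * l)) : ℝ) ≤ (M * (k * q * C)) * (l : ℝ) ^ β := by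
      refine (hup _).trans ?_
      have e : ((M * (k * q * l) : ℕ) : ℝ) = ((M * (k * q) : ℕ) : ℝ) * (l : ℝ) := by
        push_cast
        ring
      rw [e, Real.mul_rpow (by positivity) (by positivity)]
      have e1 : (1 : ℝ) ≤ ((M * (k * q) : ℕ) : ℝ) := by
        exact_mod_cast Nat.one_le_iff_ne_zero.2 (by positivity)
      have e2 : ((M * (k * q) : ℕ) : ℝ) ^ β ≤ ((M * (k * q) : ℕ) : ℝ) := by
        calc ((M * (k * q) : ℕ) : ℝ) ^ β ≤ ((M * (k * q) : ℕ) : ℝ) ^ (1 : ℝ) :=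
              Real.rpow_le_rpow_of_exponent_le e1 hβ1
          _ = _ := Real.rpow_one _
      calc C * (((M * (k * q) : ℕ) : ℝ) ^ β * (l : ℝ) ^ β) ≤
            C * (((M * (k * q) : ℕ) : ℝ) * (l : ℝ) ^ β) :=
            mul_le_mul_of_nonneg_left (mul_le_mul_of_nonneg_right e2 (by positivity)) hC.le
        _ = _ := by
            push_cast
            ring
    have h2 : (cnt S (M * (k * q * l)) : ℝ) ^ (2 * k - 1) ≤
        (M : ℝ) ^ (2 * k - 1) * (k * q * C) ^ (2 * k - 1) * ((l : ℝ) ^ β) ^ (2 * k - 1) := by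
      rw [← mul_pow, ← mul_pow]
      exact pow_le_pow_left₀ (by positivity) h1 _
    have h3 : (k * q * C : ℝ) ^ (2 * k - 1) ≤ (l : ℝ) ^ (β / 2) := by
      have g1 : (k * q * C : ℝ) ≤ (l : ℝ) ^ (β / (4 * k)) := by
        refine le_trans ?_ hl3
        have : (k : ℝ) * q * C ≤ k * (θ * Real.log l + 1) * C :=
          mul_le_mul_of_nonneg_right (mul_le_mul_of_nonneg_left hqle hk0.le) hC.le
        linarith
      refine (pow_le_pow_left₀ (by positivity) g1 _).trans ?_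
      rw [← Real.rpow_natCast, ← Real.rpow_mul hl0.le]
      apply Real.rpow_le_rpow_of_exponent_le hl1'
      have g2 : ((2 * k - 1 : ℕ) : ℝ) ≤ 2 * k := by
        have : 2 * k - 1 ≤ 2 * k := Nat.sub_le _ _
        exact_mod_cast this
      calc β / (4 * k) * ((2 * k - 1 : ℕ) : ℝ) ≤ β / (4 * k) * (2 * k) :=
            mul_le_mul_of_nonneg_left g2 (by positivity)
        _ = β / 2 := by
            field_simp
            ring
    have h4 : (M : ℝ) ^ (2 * k + 1) ≤ (l : ℝ) ^ (β / 2) := by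
      refine (pow_le_pow_left₀ (by positivity) hMle _).trans ?_
      rw [← Real.rpow_natCast, ← Real.rpow_mul hl0.le]
      apply Real.rpow_le_rpow_of_exponent_le hl1'
      push_cast
      calc ε * (2 * (k : ℝ) + 1) ≤ β / (8 * k) * (2 * (k : ℝ) + 1) :=
            mul_le_mul_of_nonneg_right hεβ (by positivity)
        _ ≤ β / (8 * k) * (4 * k) := mul_le_mul_of_nonneg_left (by linarith) (by positivity)
        _ = β / 2 := by
            field_simp
            ring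
    have h5 : (l : ℝ) ^ (β / 2) * (l : ℝ) ^ (β / 2) = (l : ℝ) ^ β := by
      rw [← Real.rpow_add hl0]
      congr 1
      ring
    calc (M : ℝ) * (M : ℝ) ^ α * (cnt S (M * (k * q * l)) : ℝ) ^ (2 * k - 1)
        ≤ (M : ℝ) * M * ((M : ℝ) ^ (2 * k - 1) * (k * q * C) ^ (2 * k - 1) *
            ((l : ℝ) ^ β) ^ (2 * k - 1)) :=
          mul_le_mul (mul_le_mul_of_nonneg_left hMα (by positivity)) h2 (by positivity)
            (by positivity)
      _ = (M : ℝ) ^ (2 * k + 1) * (k * q * C) ^ (2 * k - 1) * ((l : ℝ) ^ β) ^ (2 * k - 1) := by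
          have e8 : (M : ℝ) ^ (2 * k + 1) = M * M * (M : ℝ) ^ (2 * k - 1) := by
            have : 2 * k + 1 = (2 * k - 1) + 1 + 1 := by omega
            rw [this, pow_succ, pow_succ]
            ring
          rw [e8]
          ring
      _ ≤ (l : ℝ) ^ (β / 2) * (l : ℝ) ^ (β / 2) * ((l : ℝ) ^ β) ^ (2 * k - 1) :=
          mul_le_mul_of_nonneg_right (mul_le_mul h4 h3 (by positivity) (by positivity))
            (by positivity)
      _ = (l : ℝ) ^ (1 - α) := by
          rw [h5, hl1a, ← pow_succ']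
          congr 1
          omega
  have hCC := lemC taskPack taskPairs α k S hα hk hS q l M hl1 hR hTT
  have hfin := AbelH343.taskAbel α hα hα1 M (fun j => ((AJ S k q l j).card : ℝ))
    (a0 * (l : ℝ) ^ ((1 - α) / 2)) ((4 * k * q + 1) * (l : ℝ) ^ (1 - α)) (by positivity)
    (by positivity) (fun j => by positivity) ?_ hCC
  · have e1 : (a0 * (l : ℝ) ^ ((1 - α) / 2) * ((1 - α) / 4)) ^ 2 = w * (l : ℝ) ^ (1 - α) := by
      rw [hw, hl1a, hl1b]
      ring
    rw [e1] at hfin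
    have hlp : (0 : ℝ) < (l : ℝ) ^ (1 - α) := by positivity
    have hH : ε * Real.log l ≤ ∑ j ∈ Finset.Icc 1 M, 1 / (j : ℝ) := by
      have g1 := log_add_one_le_harmonic M
      rw [harmonic_eq_sum_Icc] at g1
      push_cast at g1
      have g2 : ε * Real.log l ≤ Real.log ((M : ℝ) + 1) := by
        rw [← Real.log_rpow hl0]
        exact Real.log_le_log (by positivity) hMge.le
      refine (g2.trans g1).trans (le_of_eq ?_)
      refine Finset.sum_congr rfl fun j _ => ?_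
      rw [one_div]
    have g3 : w * (∑ j ∈ Finset.Icc 1 M, 1 / (j : ℝ)) ≤ 4 * k * q + 1 := by
      have : w * (∑ j ∈ Finset.Icc 1 M, 1 / (j : ℝ)) * (l : ℝ) ^ (1 - α) ≤
          (4 * k * q + 1) * (l : ℝ) ^ (1 - α) := by
        calc w * (∑ j ∈ Finset.Icc 1 M, 1 / (j : ℝ)) * (l : ℝ) ^ (1 - α) =
            w * (l : ℝ) ^ (1 - α) * (∑ j ∈ Finset.Icc 1 M, 1 / (j : ℝ)) := by ring
          _ ≤ _ := hfin
      exact le_of_mul_le_mul_right this hlp
    have g4 : w * (ε * Real.log l) ≤ 4 * k * q + 1 :=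
      (mul_le_mul_of_nonneg_left hH hwp.le).trans g3
    have g5 : (4 : ℝ) * k * q ≤ w * ε * Real.log l / 2 + 4 * k := by
      calc (4 : ℝ) * k * q ≤ 4 * k * (θ * Real.log l + 1) :=
            mul_le_mul_of_nonneg_left hqle (by positivity)
        _ = _ := by
            rw [hθ]
            field_simp
            ring
    rw [div_lt_iff₀ (by positivity)] at hl5
    nlinarith
  · intro J hJ1 hJM
    have hJ0 : (0 : ℝ) < J := by exact_mod_cast hJ1
    have h2 : (cnt S (J * l) : ℝ) ≤ C * ((J : ℝ) ^ β * (l : ℝ) ^ β) := by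
      refine (hup _).trans (le_of_eq ?_)
      push_cast
      rw [Real.mul_rpow (by positivity) (by positivity)]
    have h := lower k S hk β C q l J hq1 hl1 hJ1 (hlow J hJ1 hJM) h2 hβ0 hl2
    have e2 : (J : ℝ) ^ ((1 - α) / 2) = ((J : ℝ) ^ β) ^ k := by
      rw [← Real.rpow_natCast, ← Real.rpow_mul (by positivity), hβk]
    rw [hl1b, e2]
    exact h

end Pool.Agent.Y941.SB
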